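import Pool.Agent.Q40.AD.Dense

/-!
Polynomial maps into an algebraic set over an algebraically closed field `F` of complex numbers are
limits of polynomial maps over `F`.
-/

set_option autoImplicit false

namespace Pool.Agent.Q40.AD

open MvPolynomial Filter Topology

variable {d n : ℕ}

/-- ring homomorphisms and substitution -/
theorem map_aeval_gen {F A B : Type} [Field F] [CommRing A] [CommRing B] [Algebra F A] [Algebra F B]
    (φ : A →ₐ[F] B) {n d : ℕ} (T : Fin n → MvPolynomial (Fin d) A) (P : MvPolynomial (Fin n) F) :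
    MvPolynomial.map (φ : A →+* B) (aeval T P) =
      aeval (fun j => MvPolynomial.map (φ : A →+* B) (T j)) P :=
  MvPolynomial.comp_aeval_apply (f := T) (MvPolynomial.mapAlgHom φ) P

/-- **Approximation over `F`.** -/
theorem exists_over (F : Subfield ℂ) [IsAlgClosed F] (V : Finset (MvPolynomial (Fin n) F))
    {W : Fin n → MvPolynomial (Fin d) ℂ} (hW : ∀ P ∈ V, aeval W P = 0) (R : ℝ) {δ : ℝ}
    (hδ : 0 < δ) : ∃ W' : Fin n → MvPolynomial (Fin d) F, (∀ P ∈ V, aeval W' P = 0) ∧
      (∀ j, (W' j).support ⊆ Finset.univ.biUnion fun i => (W i).support) ∧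
      ∀ z : Fin d → ℂ, ‖z‖ ≤ R → ∀ j,
        ‖eval z (W j) - eval z (map F.subtype (W' j))‖ ≤ δ := by
  classical
  let S : Finset (Fin d →₀ ℕ) := Finset.univ.biUnion fun i => (W i).support
  let σ : Type := Fin n × S
  let A := MvPolynomial σ F
  let T : Fin n → MvPolynomial (Fin d) A := fun j => ∑ m : S, monomial (m : Fin d →₀ ℕ) (X (j, m))
  let x : σ → ℂ := fun q => coeff (q.2 : Fin d →₀ ℕ) (W q.1)
  let V' : Finset A := V.biUnion fun P => (aeval T P).support.image fun m => coeff m (aeval T P)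
  have hTx : ∀ j, MvPolynomial.map ((aeval x : A →ₐ[F] ℂ) : A →+* ℂ) (T j) = W j := by
    intro j
    simp only [T, map_sum, map_monomial]
    have h1 : ∀ m : S, monomial (m : Fin d →₀ ℕ) (((aeval x : A →ₐ[F] ℂ) : A →+* ℂ) (X (j, m))) =
        monomial (m : Fin d →₀ ℕ) (coeff (m : Fin d →₀ ℕ) (W j)) := by
      intro m
      congr 1
      exact aeval_X _ _
    rw [Finset.sum_congr rfl fun m _ => h1 m,
      Finset.sum_coe_sort S fun m => monomial m (coeff m (W j))]
    conv_rhs => rw [(W j).as_sum]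
    symm
    apply Finset.sum_subset
    · intro m hm
      exact Finset.mem_biUnion.2 ⟨j, Finset.mem_univ j, hm⟩
    · intro m _ hm
      rw [notMem_support_iff.1 hm, monomial_zero]
  have hV' : ∀ G ∈ V', aeval x G = 0 := by
    intro G hG
    obtain ⟨P, hP, hG'⟩ := Finset.mem_biUnion.1 hG
    obtain ⟨m, -, rfl⟩ := Finset.mem_image.1 hG'
    have h1 := map_aeval_gen (aeval x : A →ₐ[F] ℂ) T P
    simp only [hTx] at h1
    rw [hW P hP] at h1
    have h2 := congrArg (coeff m) h1
    rw [coeff_map, coeff_zero] at h2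
    exact h2
  -- closeness
  set K : ℝ := ∑ m ∈ S, (max R 1) ^ (∑ i, m i) with hK
  have hK0 : 0 ≤ K := Finset.sum_nonneg fun m _ => by positivity
  have hε : 0 < δ / (K + 1) := by positivity
  obtain ⟨x', h1, h2⟩ := dense_alg F x V' hV' (Metric.ball_mem_nhds x hε)
  let W' : Fin n → MvPolynomial (Fin d) F := fun j => MvPolynomial.map (eval x') (T j)
  have hco : ∀ j (m : Fin d →₀ ℕ), coeff m (W' j) = if h : m ∈ S then x' (j, ⟨m, h⟩) else 0 := by
    intro j m
    simp only [W', T, map_sum, map_monomial, coeff_sum, coeff_monomial, eval_X]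
    split_ifs with h
    · rw [Finset.sum_eq_single (⟨m, h⟩ : S)]
      · rw [if_pos rfl]
      · intro b _ hb
        rw [if_neg fun h' => hb (Subtype.ext h')]
      · intro h'
        exact absurd (Finset.mem_univ _) h'
    · refine Finset.sum_eq_zero fun b _ => ?_
      rw [if_neg]
      rintro rfl
      exact h b.2
  refine ⟨W', fun P hP => ?_, fun j m hm => ?_, fun z hz j => ?_⟩
  · have h3 := map_aeval_gen (aeval x' : A →ₐ[F] F) T P
    have h4 : (fun j => MvPolynomial.map ((aeval x' : A →ₐ[F] F) : A →+* F) (T j)) = W' := rfl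
    rw [h4] at h3
    rw [← h3]
    refine MvPolynomial.ext _ _ fun m => ?_
    rw [coeff_map, coeff_zero]
    by_cases hm : m ∈ (aeval T P).support
    · have h5 := h2 _ (Finset.mem_biUnion.2 ⟨P, hP, Finset.mem_image.2 ⟨m, hm, rfl⟩⟩)
      change aeval x' (coeff m (aeval T P)) = 0
      rw [aeval_eq_eval]
      exact h5
    · rw [notMem_support_iff.1 hm, map_zero]
  · by_contra hmS
    rw [mem_support_iff, hco, dif_neg hmS] at hm
    exact hm rfl
  · have h3 : eval z (W j) = ∑ m : S, x (j, m) * ∏ i, z i ^ (m : Fin d →₀ ℕ) i := by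
      rw [eval_eq', Finset.sum_coe_sort S fun m => coeff m (W j) * ∏ i, z i ^ m i]
      apply Finset.sum_subset
      · intro m hm
        exact Finset.mem_biUnion.2 ⟨j, Finset.mem_univ j, hm⟩
      · intro m _ hm
        rw [notMem_support_iff.1 hm, zero_mul]
    have h4 : eval z (map F.subtype (W' j)) =
        ∑ m : S, (x' (j, m) : ℂ) * ∏ i, z i ^ (m : Fin d →₀ ℕ) i := by
      simp only [W', T, map_sum, map_monomial, eval_monomial, eval_X]
      refine Finset.sum_congr rfl fun m _ => ?_
      congr 1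
      rw [Finsupp.prod_fintype]
      intro i
      exact pow_zero _
    rw [h3, h4, ← Finset.sum_sub_distrib]
    have h5 : ∀ m : S, ‖x (j, m) * ∏ i, z i ^ (m : Fin d →₀ ℕ) i -
        (x' (j, m) : ℂ) * ∏ i, z i ^ (m : Fin d →₀ ℕ) i‖ ≤
        δ / (K + 1) * (max R 1) ^ (∑ i, (m : Fin d →₀ ℕ) i) := by
      intro m
      rw [← sub_mul, norm_mul]
      have h6 : ‖x (j, m) - (x' (j, m) : ℂ)‖ ≤ δ / (K + 1) := by
        have h7 := norm_le_pi_norm ((fun i => (x' i : ℂ)) - x) (j, m)
        rw [mem_ball_iff_norm] at h1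
        rw [norm_sub_rev]
        exact h7.trans h1.le
      refine mul_le_mul h6 ?_ (norm_nonneg _) hε.le
      rw [norm_prod, ← Finset.prod_pow_eq_pow_sum]
      refine Finset.prod_le_prod (fun i _ => norm_nonneg _) fun i _ => ?_
      rw [norm_pow]
      exact pow_le_pow_left₀ (norm_nonneg _) ((norm_le_pi_norm z i).trans
        (hz.trans (le_max_left _ _))) _
    refine (norm_sum_le_of_le _ fun m _ => h5 m).trans ?_
    rw [← Finset.mul_sum, Finset.sum_coe_sort S fun m => (max R 1) ^ (∑ i, m i), ← hK]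
    rw [div_mul_eq_mul_div, div_le_iff₀ (by linarith)]
    nlinarith

end Pool.Agent.Q40.AD
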