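import Mathlib

/-!
Algebraic points are dense: for an algebraically closed subfield `F` of the complex numbers, every
complex tuple is a limit of tuples over `F` which satisfy given algebraic relations over `F`.
-/

set_option autoImplicit false

namespace Pool.Agent.Q40.AD

open MvPolynomial Filter Topology

/-- pseudo-division -/
theorem pseudo {R : Type} [CommRing R] {m : Polynomial R} (hm : 0 < m.natDegree) :
    ∀ (n : ℕ) (g : Polynomial R), g.natDegree ≤ n → ∃ (k : ℕ) (q r : Polynomial R),
      Polynomial.C (m.leadingCoeff ^ k) * g = m * q + r ∧ r.natDegree < m.natDegree := by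
  intro n
  induction n with
  | zero =>
    intro g hg
    exact ⟨0, 0, g, by simp, by omega⟩
  | succ n ih =>
    intro g hg
    rcases Nat.lt_or_ge g.natDegree m.natDegree with h | h
    · exact ⟨0, 0, g, by simp, h⟩
    · set c := m.leadingCoeff with hc
      set a := g.natDegree - m.natDegree with ha
      set g1 := Polynomial.C c * g - Polynomial.C g.leadingCoeff * Polynomial.X ^ a * m with hg1
      have h1 : g1.natDegree ≤ g.natDegree := by
        rw [hg1]
        refine (Polynomial.natDegree_sub_le _ _).trans (max_le ?_ ?_)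
        · exact (Polynomial.natDegree_C_mul_le _ _)
        · refine (Polynomial.natDegree_mul_le).trans ?_
          have h2 := Polynomial.natDegree_C_mul_X_pow_le g.leadingCoeff a
          omega
      have h2 : g1.coeff g.natDegree = 0 := by
        rw [hg1, Polynomial.coeff_sub, Polynomial.coeff_C_mul, mul_assoc, Polynomial.coeff_C_mul]
        have h3 : (Polynomial.X ^ a * m).coeff g.natDegree = m.leadingCoeff := by
          have h4 : g.natDegree = m.natDegree + a := by omega
          rw [h4, Polynomial.coeff_X_pow_mul]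
          rfl
        rw [h3]
        change c * g.leadingCoeff - g.leadingCoeff * c = 0
        ring
      have h3 : g1.natDegree < g.natDegree := by
        refine lt_of_le_of_ne h1 fun h4 => ?_
        have h5 : g1.leadingCoeff = 0 := by
          change g1.coeff g1.natDegree = 0
          rw [h4, h2]
        rw [Polynomial.leadingCoeff_eq_zero] at h5
        rw [h5, Polynomial.natDegree_zero] at h4
        omega
      obtain ⟨k, q, r, h4, h5⟩ := ih g1 (by omega)
      refine ⟨k + 1, q + Polynomial.C (c ^ k) * (Polynomial.C g.leadingCoeff * Polynomial.X ^ a), r,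
        ?_, h5⟩
      have h6 : Polynomial.C c * g = g1 + Polynomial.C g.leadingCoeff * Polynomial.X ^ a * m := by
        rw [hg1]
        ring
      rw [pow_succ, Polynomial.C_mul, mul_assoc, h6, mul_add, h4]
      ring

theorem prod_ge {δ : ℝ} (hδ : 0 ≤ δ) (u : ℂ) (s : Multiset ℂ) (h : ∀ r ∈ s, δ ≤ ‖u - r‖) :
    δ ^ (Multiset.card s) ≤ ‖(s.map fun r => u - r).prod‖ := by
  induction s using Multiset.induction_on with
  | empty => simp
  | cons a s ih =>
    rw [Multiset.card_cons, Multiset.map_cons, Multiset.prod_cons, norm_mul, pow_succ, mul_comm]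
    exact mul_le_mul (h a (Multiset.mem_cons_self _ _)) (ih fun r hr => h r
      (Multiset.mem_cons_of_mem hr)) (by positivity) (norm_nonneg _)

variable {F : Subfield ℂ}

/-- roots near points with small values -/
theorem root_near [IsAlgClosed F] (h : Polynomial F) {u : ℂ} {δ : ℝ} (hδ : 0 < δ)
    (hsmall : ‖(h.map F.subtype).eval u‖ < ‖(h.leadingCoeff : ℂ)‖ * δ ^ h.natDegree) :
    ∃ r : F, h.eval r = 0 ∧ ‖(r : ℂ) - u‖ < δ := by
  classical
  by_contra hcon
  push Not at hcon
  have h0 : h ≠ 0 := by
    rintro rfl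
    simp at hsmall
  have hs := IsAlgClosed.splits h
  have h1 := hs.eq_prod_roots
  have h2 : Multiset.card h.roots = h.natDegree := (hs.natDegree_eq_card_roots).symm
  have h3 : (h.map F.subtype).eval u = (h.leadingCoeff : ℂ) *
      ((h.roots.map F.subtype).map fun r => u - r).prod := by
    conv_lhs => rw [h1]
    rw [Polynomial.map_mul, Polynomial.map_C, Polynomial.eval_mul, Polynomial.eval_C,
      Polynomial.map_multiset_prod, Polynomial.eval_multiset_prod, Multiset.map_map,
      Multiset.map_map, Multiset.map_map]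
    congr 2
    refine Multiset.map_congr rfl fun r _ => ?_
    simp
  have h4 := prod_ge hδ.le u (h.roots.map F.subtype) (fun r hr => by
    obtain ⟨r', hr', rfl⟩ := Multiset.mem_map.1 hr
    have h5 := hcon r' ((Polynomial.mem_roots h0).1 hr')
    rw [norm_sub_rev]
    exact h5)
  rw [Multiset.card_map, h2] at h4
  rw [h3, norm_mul] at hsmall
  exact absurd hsmall (not_lt.2 (mul_le_mul_of_nonneg_left h4 (norm_nonneg _)))

/-- algebraically closed subfields are dense -/
theorem dense_field [IsAlgClosed F] (y : ℂ) {δ : ℝ} (hδ : 0 < δ) : ∃ y' : F, ‖(y' : ℂ) - y‖ < δ := by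
  obtain ⟨a, ha1, ha2⟩ := exists_rat_btwn (show y.re < y.re + δ / 2 by linarith)
  obtain ⟨b, hb1, hb2⟩ := exists_rat_btwn (show y.im < y.im + δ / 2 by linarith)
  obtain ⟨I', hI'⟩ := IsAlgClosed.exists_pow_nat_eq (-1 : F) (n := 2) (by norm_num)
  have hI : Complex.I ∈ F := by
    have h1 : ((I' : ℂ)) ^ 2 = -1 := by
      have := congrArg (fun t : F => (t : ℂ)) hI'
      simpa using this
    have h2 : ((I' : ℂ) - Complex.I) * ((I' : ℂ) + Complex.I) = 0 := by
      have : ((I' : ℂ) - Complex.I) * ((I' : ℂ) + Complex.I) = (I' : ℂ) ^ 2 - Complex.I ^ 2 := by ring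
      rw [this, h1, Complex.I_sq, sub_self]
    rcases mul_eq_zero.1 h2 with h3 | h3
    · rw [← sub_eq_zero.1 h3]
      exact I'.2
    · rw [← neg_eq_of_add_eq_zero_right h3]
      exact F.neg_mem I'.2
  have hmem : (a : ℂ) + (b : ℂ) * Complex.I ∈ F :=
    F.add_mem (SubfieldClass.ratCast_mem F a) (F.mul_mem (SubfieldClass.ratCast_mem F b) hI)
  refine ⟨⟨_, hmem⟩, ?_⟩
  change ‖(a : ℂ) + (b : ℂ) * Complex.I - y‖ < δ
  refine (Complex.norm_le_abs_re_add_abs_im _).trans_lt ?_
  have h1 : ((a : ℂ) + (b : ℂ) * Complex.I - y).re = (a : ℝ) - y.re := by simp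
  have h2 : ((a : ℂ) + (b : ℂ) * Complex.I - y).im = (b : ℝ) - y.im := by simp
  rw [h1, h2, abs_of_pos (by linarith), abs_of_pos (by linarith)]
  linarith

section ev

variable {N : ℕ}

/-- evaluation of the coefficients -/
noncomputable def ev (F : Subfield ℂ) (z : Fin N → ℂ) : MvPolynomial (Fin N) F →+* ℂ :=
  (aeval z : MvPolynomial (Fin N) F →ₐ[F] ℂ).toRingHom

theorem ev_apply (z : Fin N → ℂ) (c : MvPolynomial (Fin N) F) : ev F z c = aeval z c := rfl

theorem ev_cons (y : ℂ) (z : Fin N → ℂ) (G : MvPolynomial (Fin (N + 1)) F) :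
    aeval (Fin.cons y z : Fin (N + 1) → ℂ) G =
      ((finSuccEquiv F N G).map (ev F z)).eval y := by
  induction G using MvPolynomial.induction_on with
  | C a =>
    rw [← algebraMap_eq, AlgHom.commutes, AlgEquiv.commutes]
    have h1 : algebraMap F (Polynomial (MvPolynomial (Fin N) F)) a =
        Polynomial.C (algebraMap F (MvPolynomial (Fin N) F) a) := rfl
    rw [h1, Polynomial.map_C, Polynomial.eval_C]
    change _ = aeval z (algebraMap F (MvPolynomial (Fin N) F) a)
    rw [AlgHom.commutes]
  | add p q hp hq => rw [map_add, map_add, Polynomial.map_add, Polynomial.eval_add, hp, hq]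
  | mul_X p i hp =>
    rw [map_mul, map_mul, Polynomial.map_mul, Polynomial.eval_mul, hp, aeval_X]
    congr 1
    refine Fin.cases ?_ (fun i => ?_) i
    · rw [finSuccEquiv_X_zero, Polynomial.map_X, Polynomial.eval_X, Fin.cons_zero]
    · rw [finSuccEquiv_X_succ, Polynomial.map_C, Polynomial.eval_C, Fin.cons_succ, ev_apply,
        aeval_X]

theorem aeval_coe {σ : Type} (x' : σ → F) (G : MvPolynomial σ F) :
    aeval (fun i => (x' i : ℂ)) G = ((eval x' G : F) : ℂ) := by
  have h1 := MvPolynomial.comp_aeval_apply (f := x') (Algebra.ofId F ℂ) G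
  rw [aeval_eq_eval] at h1
  exact h1.symm

theorem continuous_ev (c : MvPolynomial (Fin N) F) : Continuous fun z : Fin N → ℂ => ev F z c := by
  have h1 : (fun z : Fin N → ℂ => ev F z c) = fun z => eval z (map F.subtype c) := by
    funext z
    rw [eval_map]
    rfl
  rw [h1]
  exact MvPolynomial.continuous_eval _

theorem continuous_evp (m : Polynomial (MvPolynomial (Fin N) F)) (y : ℂ) :
    Continuous fun z : Fin N → ℂ => (m.map (ev F z)).eval y := by
  have h1 : (fun z : Fin N → ℂ => (m.map (ev F z)).eval y) = fun z =>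
      ∑ i ∈ Finset.range (m.natDegree + 1), ev F z (m.coeff i) * y ^ i := by
    funext z
    rw [Polynomial.eval_map, Polynomial.eval₂_eq_sum_range]
  rw [h1]
  exact continuous_finsetSum _ fun i _ => (continuous_ev _).mul continuous_const

/-- truncation -/
theorem trunc (s : Fin N → ℂ) (g : Polynomial (MvPolynomial (Fin N) F))
    (hg : g.map (ev F s) ≠ 0) : ∃ m : Polynomial (MvPolynomial (Fin N) F),
      m.natDegree ≤ g.natDegree ∧ ev F s m.leadingCoeff ≠ 0 ∧ m.map (ev F s) = g.map (ev F s) := by
  classical
  set D := (g.map (ev F s)).natDegree with hD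
  have hc : ev F s (g.coeff D) ≠ 0 := by
    rw [← Polynomial.coeff_map]
    exact Polynomial.leadingCoeff_ne_zero.2 hg
  let m : Polynomial (MvPolynomial (Fin N) F) :=
    ∑ i ∈ Finset.range (D + 1), Polynomial.C (g.coeff i) * Polynomial.X ^ i
  have hco : ∀ i, m.coeff i = if i ≤ D then g.coeff i else 0 := by
    intro i
    simp only [m, Polynomial.finsetSum_coeff, Polynomial.coeff_C_mul, Polynomial.coeff_X_pow,
      mul_ite, mul_one, mul_zero]
    rw [Finset.sum_ite_eq (Finset.range (D + 1)) i]
    by_cases h : i ≤ D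
    · rw [if_pos h, if_pos (Finset.mem_range.2 (by omega))]
    · rw [if_neg h, if_neg (by
        rw [Finset.mem_range]
        omega)]
  have hmD : m.natDegree = D := by
    apply le_antisymm
    · rw [Polynomial.natDegree_le_iff_coeff_eq_zero]
      intro i hi
      rw [hco, if_neg (by omega)]
    · apply Polynomial.le_natDegree_of_ne_zero
      rw [hco, if_pos le_rfl]
      intro h0
      apply hc
      rw [h0, map_zero]
  refine ⟨m, ?_, ?_, ?_⟩
  · rw [hmD]
    exact Polynomial.natDegree_map_le
  · change ev F s (m.coeff m.natDegree) ≠ 0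
    rw [hmD, hco, if_pos le_rfl]
    exact hc
  · ext i
    rw [Polynomial.coeff_map, Polynomial.coeff_map, hco]
    split_ifs with h
    · rfl
    · rw [map_zero]
      have h1 : (g.map (ev F s)).coeff i = 0 := Polynomial.coeff_eq_zero_of_natDegree_lt (by omega)
      rw [Polynomial.coeff_map] at h1
      exact h1.symm

/-- **Algebraic points are dense.** -/
theorem dense_fin (F : Subfield ℂ) [IsAlgClosed F] : ∀ (N : ℕ) (x : Fin N → ℂ)
    (V : Finset (MvPolynomial (Fin N) F)), (∀ G ∈ V, aeval x G = 0) → ∀ U ∈ 𝓝 x,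
      ∃ x' : Fin N → F, (fun i => (x' i : ℂ)) ∈ U ∧ ∀ G ∈ V, eval x' G = 0 := by
  classical
  intro N
  induction N with
  | zero =>
    intro x V hV U hU
    have h1 : (fun i => ((Fin.elim0 i : F) : ℂ)) = x := Subsingleton.elim _ _
    refine ⟨fun i => Fin.elim0 i, ?_, fun G hG => ?_⟩
    · rw [h1]
      exact mem_of_mem_nhds hU
    · have h2 := hV G hG
      rw [← h1, aeval_coe] at h2
      exact_mod_cast h2
  | succ N ih =>
    intro x V hV U hU
    obtain ⟨δ, hδ, hball⟩ := Metric.mem_nhds_iff.1 hU
    set y := x 0 with hy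
    set s : Fin N → ℂ := fun i => x i.succ with hs
    have hx : (Fin.cons y s : Fin (N + 1) → ℂ) = x := by
      funext i
      refine Fin.cases rfl (fun i => rfl) i
    have hV' : ∀ G ∈ V, ((finSuccEquiv F N G).map (ev F s)).eval y = 0 := by
      intro G hG
      rw [← ev_cons, hx]
      exact hV G hG
    -- the conclusion from points of the base
    have hfin : ∀ (s' : Fin N → F) (y' : F), ‖(fun i => (s' i : ℂ)) - s‖ < δ → ‖(y' : ℂ) - y‖ < δ →
        (∀ G ∈ V, ((finSuccEquiv F N G).map (ev F fun i => (s' i : ℂ))).eval (y' : ℂ) = 0) →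
        ∃ x' : Fin (N + 1) → F, (fun i => (x' i : ℂ)) ∈ U ∧ ∀ G ∈ V, eval x' G = 0 := by
      intro s' y' h1 h2 h3
      have h4 : (fun i => (((Fin.cons y' s' : Fin (N + 1) → F) i : F) : ℂ)) =
          Fin.cons (y' : ℂ) (fun i => (s' i : ℂ)) := by
        funext i
        refine Fin.cases rfl (fun i => rfl) i
      refine ⟨Fin.cons y' s', hball ?_, fun G hG => ?_⟩
      · rw [h4, mem_ball_iff_norm, pi_norm_lt_iff hδ]
        intro i
        refine Fin.cases ?_ (fun i => ?_) i
        · exact h2
        · exact (norm_le_pi_norm ((fun i => (s' i : ℂ)) - s) i).trans_lt h1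
      · have h5 := h3 G hG
        rw [← ev_cons, ← h4, aeval_coe] at h5
        exact_mod_cast h5
    have hnear : ∀ᶠ z in 𝓝 s, ‖z - s‖ < δ := by
      filter_upwards [Metric.ball_mem_nhds s hδ] with z hz
      exact mem_ball_iff_norm.1 hz
    by_cases halg : ∃ D : ℕ, ∃ m : Polynomial (MvPolynomial (Fin N) F), m.natDegree = D ∧
        ev F s m.leadingCoeff ≠ 0 ∧ (m.map (ev F s)).eval y = 0
    · -- the algebraic case
      obtain ⟨m, hmD, hmc, hmy⟩ := Nat.find_spec halg
      have hmin := fun D' (h : D' < Nat.find halg) => Nat.find_min halg h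
      set D := Nat.find halg with hD
      have hD0 : 0 < m.natDegree := by
        by_contra h
        have h1 : m.natDegree = 0 := by omega
        have h2 := Polynomial.eq_C_of_natDegree_eq_zero h1
        apply hmc
        rw [Polynomial.leadingCoeff, h1]
        rw [h2, Polynomial.map_C, Polynomial.eval_C] at hmy
        exact hmy
      choose k q r hqr hrd using fun G : MvPolynomial (Fin (N + 1)) F =>
        pseudo hD0 _ (finSuccEquiv F N G) le_rfl
      have hr0 : ∀ G ∈ V, (r G).map (ev F s) = 0 := by
        intro G hG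
        by_contra hne
        have h1 : ((r G).map (ev F s)).eval y = 0 := by
          have h2 := congrArg (fun t => (Polynomial.map (ev F s) t).eval y) (hqr G)
          simp only [Polynomial.map_mul, Polynomial.map_add, Polynomial.eval_mul,
            Polynomial.eval_add, hV' G hG, hmy, mul_zero, zero_mul, zero_add] at h2
          exact h2.symm
        obtain ⟨m', hm'1, hm'2, hm'3⟩ := trunc s (r G) hne
        refine hmin m'.natDegree ?_ ⟨m', rfl, hm'2, by rw [hm'3]; exact h1⟩
        have := hrd G
        omega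
      let V' : Finset (MvPolynomial (Fin N) F) := V.biUnion fun G =>
        (Finset.range (m.natDegree)).image fun i => (r G).coeff i
      have hV'0 : ∀ H ∈ V', aeval s H = 0 := by
        intro H hH
        obtain ⟨G, hG, hH'⟩ := Finset.mem_biUnion.1 hH
        obtain ⟨i, -, rfl⟩ := Finset.mem_image.1 hH'
        have h1 := congrArg (fun t => Polynomial.coeff t i) (hr0 G hG)
        rw [Polynomial.coeff_map, Polynomial.coeff_zero] at h1
        exact h1
      have hc1 : ∀ᶠ z in 𝓝 s, ev F z m.leadingCoeff ≠ 0 :=
        (continuous_ev m.leadingCoeff).continuousAt.eventually_ne hmc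
      have hc2 : ∀ᶠ z in 𝓝 s, ‖(m.map (ev F z)).eval y‖ <
          ‖ev F z m.leadingCoeff‖ * δ ^ m.natDegree := by
        have h1 : Continuous fun z : Fin N → ℂ => ‖ev F z m.leadingCoeff‖ * δ ^ m.natDegree -
            ‖(m.map (ev F z)).eval y‖ :=
          ((continuous_ev m.leadingCoeff).norm.mul continuous_const).sub (continuous_evp m y).norm
        have h2 : 0 < ‖ev F s m.leadingCoeff‖ * δ ^ m.natDegree - ‖(m.map (ev F s)).eval y‖ := by
          rw [hmy, norm_zero, sub_zero]
          have := norm_pos_iff.2 hmc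
          positivity
        filter_upwards [h1.continuousAt.eventually_const_lt h2] with z hz
        linarith
      obtain ⟨s', ⟨h1, h2, h3⟩, h4⟩ := ih s V' hV'0 _ (hc1.and (hc2.and hnear))
      set s'c : Fin N → ℂ := fun i => (s' i : ℂ) with hs'c
      -- the polynomial over `F`
      let m' : Polynomial F := m.map (eval s')
      have hm'm : m'.map F.subtype = m.map (ev F s'c) := by
        rw [Polynomial.map_map]
        congr 1
        ext c
        · simp [ev, s'c]
          rfl
        · simp [ev, s'c]
      have hlc : eval s' m.leadingCoeff ≠ 0 := by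
        intro h0
        apply h1
        rw [ev_apply, hs'c, aeval_coe, h0]
        rfl
      have hdeg : m'.natDegree = m.natDegree := Polynomial.natDegree_map_of_leadingCoeff_ne_zero _ hlc
      have hlc' : m'.leadingCoeff = eval s' m.leadingCoeff :=
        Polynomial.leadingCoeff_map_of_leadingCoeff_ne_zero _ hlc
      obtain ⟨y', hy'1, hy'2⟩ := root_near m' (u := y) hδ (by
        rw [hm'm, hdeg, hlc', ← aeval_coe]
        exact h2)
      refine hfin s' y' h3 hy'2 fun G hG => ?_
      have h5 : (m.map (ev F s'c)).eval (y' : ℂ) = 0 := by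
        rw [← hm'm, Polynomial.eval_map]
        change Polynomial.eval₂ F.subtype (F.subtype y') m' = 0
        rw [Polynomial.eval₂_at_apply, hy'1, map_zero]
      have h6 : (r G).map (ev F s'c) = 0 := by
        ext i
        rw [Polynomial.coeff_map, Polynomial.coeff_zero]
        rcases Nat.lt_or_ge i m.natDegree with hi | hi
        · have h7 := h4 _ (Finset.mem_biUnion.2 ⟨G, hG, Finset.mem_image.2
            ⟨i, Finset.mem_range.2 hi, rfl⟩⟩)
          rw [ev_apply, hs'c, aeval_coe, h7]
          rfl
        · rw [Polynomial.coeff_eq_zero_of_natDegree_lt ((hrd G).trans_le hi), map_zero]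
      have h7 := congrArg (fun t => (Polynomial.map (ev F s'c) t).eval (y' : ℂ)) (hqr G)
      beta_reduce at h7
      rw [Polynomial.map_mul, Polynomial.eval_mul, Polynomial.map_C, Polynomial.eval_C, map_pow,
        Polynomial.map_add, Polynomial.map_mul, h6, add_zero, Polynomial.eval_mul, h5,
        zero_mul] at h7
      exact (mul_eq_zero.1 h7).resolve_left (pow_ne_zero _ h1)
    · -- the transcendental case
      have hG0 : ∀ G ∈ V, (finSuccEquiv F N G).map (ev F s) = 0 := by
        intro G hG
        by_contra hne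
        obtain ⟨m', -, hm'2, hm'3⟩ := trunc s _ hne
        exact halg ⟨m'.natDegree, m', rfl, hm'2, by rw [hm'3]; exact hV' G hG⟩
      let V' : Finset (MvPolynomial (Fin N) F) := V.biUnion fun G =>
        (Finset.range ((finSuccEquiv F N G).natDegree + 1)).image fun i =>
          (finSuccEquiv F N G).coeff i
      have hV'0 : ∀ H ∈ V', aeval s H = 0 := by
        intro H hH
        obtain ⟨G, hG, hH'⟩ := Finset.mem_biUnion.1 hH
        obtain ⟨i, -, rfl⟩ := Finset.mem_image.1 hH'
        have h1 := congrArg (fun t => Polynomial.coeff t i) (hG0 G hG)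
        rw [Polynomial.coeff_map, Polynomial.coeff_zero] at h1
        exact h1
      obtain ⟨s', h3, h4⟩ := ih s V' hV'0 _ hnear
      obtain ⟨y', hy'⟩ := dense_field (F := F) y hδ
      refine hfin s' y' h3 hy' fun G hG => ?_
      have h6 : (finSuccEquiv F N G).map (ev F fun i => (s' i : ℂ)) = 0 := by
        ext i
        rw [Polynomial.coeff_map, Polynomial.coeff_zero]
        rcases Nat.lt_or_ge i ((finSuccEquiv F N G).natDegree + 1) with hi | hi
        · have h7 := h4 _ (Finset.mem_biUnion.2 ⟨G, hG, Finset.mem_image.2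
            ⟨i, Finset.mem_range.2 hi, rfl⟩⟩)
          rw [ev_apply, aeval_coe, h7]
          rfl
        · rw [Polynomial.coeff_eq_zero_of_natDegree_lt (by omega), map_zero]
      rw [h6, Polynomial.eval_zero]

/-- **Algebraic points are dense**, for all finite index types. -/
theorem dense_alg (F : Subfield ℂ) [IsAlgClosed F] {σ : Type} [Finite σ] (x : σ → ℂ)
    (V : Finset (MvPolynomial σ F)) (hV : ∀ G ∈ V, aeval x G = 0) {U : Set (σ → ℂ)} (hU : U ∈ 𝓝 x) :
    ∃ x' : σ → F, (fun i => (x' i : ℂ)) ∈ U ∧ ∀ G ∈ V, eval x' G = 0 := by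
  classical
  obtain ⟨N, ⟨e⟩⟩ := Finite.exists_equiv_fin σ
  let Φ : (Fin N → ℂ) → σ → ℂ := fun z i => z (e i)
  have hΦ : Continuous Φ := continuous_pi fun i => continuous_apply (e i)
  have h0 : Φ (fun i => x (e.symm i)) = x := by
    funext i
    simp [Φ]
  obtain ⟨x', h1, h2⟩ := dense_fin F N (fun i => x (e.symm i)) (V.image (rename e)) (by
    intro G hG
    obtain ⟨G', hG', rfl⟩ := Finset.mem_image.1 hG
    rw [aeval_rename]
    have h3 : (fun i => x (e.symm i)) ∘ e = x := by
      funext i
      simp
    rw [h3]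
    exact hV G' hG') (Φ ⁻¹' U) (hΦ.continuousAt (by rw [h0]; exact hU))
  refine ⟨fun i => x' (e i), h1, fun G hG => ?_⟩
  have h3 := h2 _ (Finset.mem_image_of_mem _ hG)
  rw [eval_rename] at h3
  exact h3

end ev

end Pool.Agent.Q40.AD
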