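import Pool.Agent.Q40.AD.Coef
import Pool.Agent.Q33.UR.Desc

/-!
Polynomial maps into an algebraic set over `k` are limits of polynomial maps over finite extensions
of `k`.
-/

set_option autoImplicit false

namespace Pool.Agent.Q40.AD

open MvPolynomial Filter Topology Pool.Agent.Q33.UR

variable {d n : ℕ}

instance clo_closed (k : Subfield ℂ) : IsAlgClosed (algebraicClosure k ℂ).toSubfield := by
  have h : IsAlgClosed (algebraicClosure k ℂ) := IsAlgClosure.isAlgClosed k
  exact h

/-- **Approximation over finite extensions.** -/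
theorem exists_finite (k : Subfield ℂ) (V : Finset (MvPolynomial (Fin n) k))
    {W : Fin n → MvPolynomial (Fin d) ℂ} (hW : ∀ P ∈ V, aeval W P = 0) {D : ℕ}
    (hD : ∀ j l, degreeOf l (W j) ≤ D) (R : ℝ) {δ : ℝ} (hδ : 0 < δ) :
    ∃ L : IntermediateField k ℂ, FiniteDimensional k L ∧ ∃ W' : Fin n → MvPolynomial (Fin d) L,
      (∀ P ∈ V, aeval W' P = 0) ∧ (∀ j l, degreeOf l (W' j) ≤ D) ∧
      ∀ z : Fin d → ℂ, ‖z‖ ≤ R → ∀ j,
        ‖eval z (W j) - eval z (map (algebraMap L ℂ) (W' j))‖ ≤ δ := by
  classical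
  set F := (algebraicClosure k ℂ).toSubfield with hF
  let ι : k →+* F := algebraMap k (algebraicClosure k ℂ)
  have hι : ∀ a : k, ((ι a : F) : ℂ) = a := fun a => rfl
  have hιc : (F.subtype).comp ι = algebraMap k ℂ := by
    ext a
    rfl
  let VF : Finset (MvPolynomial (Fin n) F) := V.image (map ι)
  have hVF : ∀ P ∈ VF, aeval W P = 0 := by
    intro P hP
    obtain ⟨P₀, hP₀, rfl⟩ := Finset.mem_image.1 hP
    have h1 := hW P₀ hP₀
    rw [aeval_def, eval₂_map]
    rw [aeval_def] at h1
    exact h1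
  obtain ⟨W'', h1, h2, h3⟩ := exists_over F VF hVF R hδ
  let S : Set ℂ := ⋃ j, ((W'' j).support.image fun m => ((coeff m (W'' j) : F) : ℂ) : Finset ℂ)
  have hSf : S.Finite := Set.finite_iUnion fun j => Finset.finite_toSet _
  have hSf' : Finite S := hSf
  have hSi : ∀ x ∈ S, IsIntegral k x := by
    intro x hx
    obtain ⟨j, hj⟩ := Set.mem_iUnion.1 hx
    obtain ⟨m, -, rfl⟩ := Finset.mem_image.1 (Finset.mem_coe.1 hj)
    have h4 : ((coeff m (W'' j) : F) : ℂ) ∈ algebraicClosure k ℂ := (coeff m (W'' j)).2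
    exact (mem_algebraicClosure_iff.1 h4).isIntegral
  let L : IntermediateField k ℂ := IntermediateField.adjoin k S
  have hL : FiniteDimensional k L := IntermediateField.finiteDimensional_adjoin hSi
  have hco : ∀ j m, coeff m (map F.subtype (W'' j)) ∈ L := by
    intro j m
    rw [coeff_map]
    by_cases hm : m ∈ (W'' j).support
    · exact IntermediateField.subset_adjoin _ _ (Set.mem_iUnion.2 ⟨j, Finset.mem_coe.2
        (Finset.mem_image.2 ⟨m, hm, rfl⟩)⟩)
    · rw [notMem_support_iff.1 hm, map_zero]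
      exact L.zero_mem
  choose WL hWL using fun j => exists_overL L (map F.subtype (W'' j)) (hco j)
  refine ⟨L, hL, WL, fun P hP => ?_, fun j l => ?_, fun z hz j => ?_⟩
  · apply MvPolynomial.map_injective (algebraMap L ℂ) (algebraMap L ℂ).injective
    rw [map_zero]
    have h5 := MvPolynomial.comp_aeval_apply (f := WL)
      (MvPolynomial.mapAlgHom (IsScalarTower.toAlgHom k L ℂ) :
        MvPolynomial (Fin d) L →ₐ[k] MvPolynomial (Fin d) ℂ) P
    have h6 : (fun i => (MvPolynomial.mapAlgHom (IsScalarTower.toAlgHom k L ℂ) :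
        MvPolynomial (Fin d) L →ₐ[k] MvPolynomial (Fin d) ℂ) (WL i)) =
        fun j => map F.subtype (W'' j) := funext hWL
    rw [h6] at h5
    refine Eq.trans h5 ?_
    have h7 := h1 _ (Finset.mem_image_of_mem (MvPolynomial.map ι) hP)
    have h8 := congrArg (MvPolynomial.map F.subtype) h7
    rw [map_zero] at h8
    rw [← h8, aeval_def, aeval_def, eval₂_map, hom_eval₂]
    congr 1
    ext a
    simp
    rfl
  · rw [degreeOf_le_iff]
    intro m hm
    have h4 : m ∈ (map (algebraMap L ℂ) (WL j)).support := by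
      rw [mem_support_iff, coeff_map]
      rw [mem_support_iff] at hm
      intro h0
      exact hm ((algebraMap L ℂ).injective (by rw [h0, map_zero]))
    rw [hWL] at h4
    obtain ⟨i, -, hi⟩ := Finset.mem_biUnion.1 (h2 j (support_map_subset _ _ h4))
    exact (degreeOf_le_iff.1 (hD i l)) m hi
  · rw [hWL]
    exact h3 z hz j

end Pool.Agent.Q40.AD
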