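import Pool.Agent.Q40.AD.Rank

/-!
Points over finite extensions near slow maps.
-/

set_option autoImplicit false

namespace Pool.Agent.Q40.AD

open MvPolynomial Filter Topology Pool.Agent.Q64.FS Pool.Agent.Q64.LC Pool.Agent.TH143.GT
  Pool.Agent.W602.GT Pool.Agent.Q33.UR Pool.Agent.Q40.SM

variable {d n e : ℕ}

/-- polynomial maps over finite extensions of maximal rank -/
theorem dom_jm {p : Ideal (MvPolynomial (Fin (n + 1)) ℂ)} {Q : MvPolynomial (Fin (n + 1)) ℂ}
    {K : Type} [Field K] [Algebra ℂ K] {w : ℕ} {y : Fin (n + 1) → K} (hy : FunField p Q K w y)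
    {W : Fin (n + 1) → MvPolynomial (Fin w) ℂ} {j : Fin (w + 1) → Fin (n + 1)}
    (hW : ∀ H ∈ p, aeval W H = 0) (h0 : eval 0 (W (j 0)) ≠ 0) (hdet : (jm W j).det ≠ 0)
    {d : ℕ} {H : MvPolynomial (Fin (n + 1)) ℂ} (hH : H.IsHomogeneous d) (hHW : aeval W H = 0) :
    aeval y H = 0 := by
  obtain ⟨hy0, hbas⟩ := basis_of_noRel hy hW (noRel_of_jm h0 hdet)
  refine dom (k := ℂ) y (j 0) hy0 (fun l => j l.succ) hbas W
    (fun d H hH hH0 => hW H (hy.mem H ⟨d, hH⟩ hH0)) (by
      intro h1
      apply h0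
      rw [h1, map_zero]) (fun i => pderiv i) (by
      intro h1
      apply hdet
      have h2 := congrArg (eval (0 : Fin w → ℂ)) h1
      rw [map_zero, RingHom.map_det] at h2
      rw [← h2]
      congr 1
      ext i l
      simp only [jm, RingHom.mapMatrix_apply, Matrix.map_apply, Matrix.of_apply, map_sub,
        map_mul]) d H hH hHW

/-- rational points near the value at the origin -/
theorem exists_near {k : Subfield ℂ} {ι : Type} {F : ι → MvPolynomial (Fin (n + 1)) k}
    {L : IntermediateField k ℂ} {W : Fin (n + 1) → MvPolynomial (Fin e) L}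
    (hW : ∀ i, aeval W (F i) = 0) {i0 : Fin (n + 1)} (hi0 : cmap W i0 ≠ 0)
    {H : MvPolynomial (Fin (n + 1)) ℂ} (hH : aeval (cmap W) H ≠ 0) {δ : ℝ} (hδ : 0 < δ) :
    ∃ x, IsPt L F x ∧ ‖x - pmap (cmap W) 0‖ ≤ δ ∧ eval x H ≠ 0 := by
  classical
  -- a small ball
  have hc : Continuous (pmap (cmap W)) := (diff_pmap (cmap W)).continuous
  obtain ⟨r, hr, hball⟩ := Metric.continuous_iff.1 hc 0 δ hδ
  let T : Set ℂ := {t | ∃ q : ℚ, (q : ℂ) = t ∧ ‖t‖ < r}
  have hT : T.Infinite := by
    obtain ⟨N, hN⟩ := exists_nat_gt (1 / r)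
    have hN0 : (0 : ℝ) < N := (by positivity : 0 < 1 / r).trans hN
    have hinj : Function.Injective fun m : ℕ => ((1 / ((N : ℚ) + m) : ℚ) : ℂ) := by
      intro a b hab
      have h1 : (1 / ((N : ℚ) + a) : ℚ) = 1 / ((N : ℚ) + b) := Rat.cast_injective (α := ℂ) hab
      have hN' : (0 : ℚ) < N := by exact_mod_cast hN0
      have h2 : (N : ℚ) + a = (N : ℚ) + b := by
        rw [div_eq_div_iff (by positivity) (by positivity)] at h1
        linarith
      have h3 : (a : ℚ) = b := by linarith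
      exact_mod_cast h3
    refine (Set.infinite_range_of_injective hinj).mono ?_
    rintro _ ⟨m, rfl⟩
    refine ⟨_, rfl, ?_⟩
    have h1 : ‖((1 / ((N : ℚ) + m) : ℚ) : ℂ)‖ = 1 / ((N : ℝ) + m) := by
      push_cast
      rw [norm_div, norm_one]
      have h2 : ((N : ℂ) + (m : ℂ)) = ((N + m : ℕ) : ℂ) := by push_cast; ring
      rw [h2, Complex.norm_natCast]
      push_cast
      ring
    rw [h1]
    have hm0 : (0 : ℝ) ≤ m := Nat.cast_nonneg m
    rw [div_lt_iff₀ (by positivity)]
    rw [div_lt_iff₀ hr] at hN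
    nlinarith
  obtain ⟨t, ht, hne⟩ : ∃ t : Fin e → ℂ, t ∈ Set.pi Set.univ (fun _ => T) ∧
      eval t (aeval (cmap W) H * cmap W i0) ≠ 0 := by
    by_contra hcon
    push Not at hcon
    exact mul_ne_zero hH hi0 (MvPolynomial.funext_set _ (fun _ => hT) fun x hx => by
      rw [hcon x hx, map_zero])
  choose q hq hqr using fun i => ht i (Set.mem_univ i)
  have hts : t = fun i => algebraMap L ℂ (q i : L) := by
    funext i
    rw [← hq i]
    simp
  have hev : ∀ i, eval t (cmap W i) = algebraMap L ℂ (eval (fun i => (q i : L)) (W i)) := by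
    intro i
    unfold cmap
    rw [eval_map, hts]
    exact (MvPolynomial.eval₂_comp_left (algebraMap L ℂ) (RingHom.id L) (fun i => (q i : L))
      (W i)).symm
  rw [map_mul] at hne
  refine ⟨pmap (cmap W) t, ⟨fun h0 => ?_, fun i => ?_, fun i => ?_⟩, ?_, ?_⟩
  · apply right_ne_zero_of_mul hne
    exact congrFun h0 i0
  · change eval t (cmap W i) ∈ L
    rw [hev]
    exact Subtype.property _
  · exact pmap_mem (aeval_cmap (hW i)) t
  · have h1 := hball t (by
      rw [dist_zero_right, pi_norm_lt_iff hr]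
      exact hqr)
    rw [dist_eq_norm] at h1
    exact h1.le
  · have h2 := MvPolynomial.comp_aeval_apply (f := cmap W)
      (aeval t : MvPolynomial (Fin e) ℂ →ₐ[ℂ] ℂ) H
    intro h3
    apply left_ne_zero_of_mul hne
    exact h2.trans h3

end Pool.Agent.Q40.AD
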