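import Pool.Agent.Q40.AD.Fin
import Pool.Agent.Q40.SM.Pol

/-!
Slow maps are limits of polynomial maps over finite extensions, together with their ranks.
-/

set_option autoImplicit false

namespace Pool.Agent.Q40.AD

open MvPolynomial Filter Topology Pool.Agent.Q64.FS Pool.Agent.Q64.LC Pool.Agent.TH143.GT
  Pool.Agent.W602.GT Pool.Agent.Q33.UR Pool.Agent.Q40.SM

variable {d n e : ℕ}

/-- polynomial maps with a property `Pr` near a map of rank `e` -/
theorem rank_seq {Ψ : ℝ → ℝ} (hmon : Monotone Ψ) (hone : ∀ r, 1 ≤ Ψ r)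
    {f : (Fin d → ℂ) → Fin (n + 1) → ℂ} {j : Fin (e + 1) → Fin (n + 1)}
    {z0 : Fin d → ℂ} (hf : Differentiable ℂ f) (hslow : Slow Ψ f) (hrank : RankAt f j z0)
    {Pr : (Fin (n + 1) → MvPolynomial (Fin e) ℂ) → Prop}
    (hPr : ∀ g : (Fin e → ℂ) → Fin (n + 1) → ℂ, Differentiable ℂ g → Slow Ψ g →
      (∀ t, ∃ s, g t = f s) → ∀ᶠ M : ℕ in atTop, ∃ W : Fin (n + 1) → MvPolynomial (Fin e) ℂ,
        Pr W ∧ ∀ z, ‖z‖ ≤ M → ∀ j, ‖g z j - eval z (W j)‖ ≤ 3 / ((M : ℝ) + 1))
    {δ : ℝ} (hδ : 0 < δ) :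
    ∃ W : Fin (n + 1) → MvPolynomial (Fin e) ℂ,
      Pr W ∧ (∀ i, ‖eval 0 (W i) - f z0 i‖ ≤ δ) ∧ eval 0 (W (j 0)) ≠ 0 ∧ (jm W j).det ≠ 0 := by
  classical
  obtain ⟨hz0, v, hdet⟩ := hrank
  obtain ⟨c, hc, hcv⟩ := exists_scale v
  let g : (Fin e → ℂ) → Fin (n + 1) → ℂ := fun t => f (z0 + ∑ i, t i • (c • v i))
  have hg : Differentiable ℂ g := by
    apply hf.comp
    apply Differentiable.const_add
    apply Differentiable.fun_sum
    intro i _
    exact (differentiable_apply i).smul_const _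
  have hgs : Slow Ψ g := hslow.comp hmon hone hf.continuous z0 (fun i => c • v i) hcv
  obtain ⟨W, hW⟩ := (hPr g hg hgs fun t => ⟨_, rfl⟩).choice
  have ht2 : Tendsto (fun M : ℕ => 3 / ((M : ℝ) + 1)) atTop (𝓝 0) := by
    have h1 := (tendsto_one_div_add_atTop_nhds_zero_nat (𝕜 := ℝ)).const_mul 3
    rw [mul_zero] at h1
    refine h1.congr fun M => ?_
    ring
  have hW2 : ∀ i, Tendsto (fun M => eval 0 (W M i)) atTop (𝓝 (g 0 i)) := by
    intro i
    rw [tendsto_iff_norm_sub_tendsto_zero]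
    refine squeeze_zero' (Eventually.of_forall fun M => norm_nonneg _) ?_ ht2
    filter_upwards [hW] with M hM
    rw [norm_sub_rev]
    refine hM.2 0 ?_ i
    rw [norm_zero]
    exact Nat.cast_nonneg M
  have hW3 : ∀ l i, Tendsto (fun M => eval 0 (pderiv l (W M i))) atTop
      (𝓝 (deriv (fun ζ : ℂ => g (Pi.single l ζ) i) 0)) := by
    intro l i
    rw [tendsto_iff_norm_sub_tendsto_zero]
    refine squeeze_zero' (Eventually.of_forall fun M => norm_nonneg _) ?_ ht2
    filter_upwards [hW, eventually_ge_atTop 1] with M hM hM1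
    rw [norm_sub_rev]
    refine deriv_close hg (fun z hz j => hM.2 z (hz.trans ?_) j) l i
    exact_mod_cast hM1
  have hg0 : g 0 = f z0 := by
    simp only [g]
    simp
  have hder : ∀ (l : Fin e) (i : Fin (n + 1)),
      deriv (fun ζ : ℂ => g (Pi.single l ζ) i) 0 = c * fderiv ℂ f z0 (v l) i := by
    intro l i
    have h4 : (fun ζ : ℂ => g (Pi.single l ζ) i) = fun ζ => f (z0 + ζ • (c • v l)) i := by
      funext ζ
      simp only [g]
      congr 2
      rw [Finset.sum_eq_single l]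
      · rw [Pi.single_eq_same]
      · intro k _ hk
        rw [Pi.single_eq_of_ne hk, zero_smul]
      · intro h
        exact absurd (Finset.mem_univ l) h
    have h5 : HasDerivAt (fun ζ : ℂ => z0 + ζ • (c • v l)) (c • v l) 0 := by
      have h6 := ((hasDerivAt_id (0 : ℂ)).smul_const (c • v l)).const_add z0
      rw [one_smul] at h6
      exact h6
    have h6 : HasFDerivAt f (fderiv ℂ f z0) (z0 + (0 : ℂ) • (c • v l)) := by
      rw [zero_smul, add_zero]
      exact (hf z0).hasFDerivAt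
    have h7 := h6.comp_hasDerivAt (0 : ℂ) h5
    have h8 := (hasDerivAt_pi.1 h7) i
    rw [h4]
    have h9 := h8.deriv
    rw [map_smul, Pi.smul_apply, smul_eq_mul] at h9
    exact h9
  -- the limit of the Jacobian matrices
  have hjm : Tendsto (fun M => jm (W M) j) atTop (𝓝 (c • Matrix.of fun i l : Fin e =>
      fderiv ℂ f z0 (v i) (j l.succ) * f z0 (j 0) -
        f z0 (j l.succ) * fderiv ℂ f z0 (v i) (j 0))) := by
    refine tendsto_pi_nhds.2 fun i => tendsto_pi_nhds.2 fun l => ?_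
    have h4 := ((hW3 i (j l.succ)).mul (hW2 (j 0))).sub ((hW2 (j l.succ)).mul (hW3 i (j 0)))
    rw [hder, hder, hg0] at h4
    have h5 : (c • Matrix.of fun i l : Fin e => fderiv ℂ f z0 (v i) (j l.succ) * f z0 (j 0) -
        f z0 (j l.succ) * fderiv ℂ f z0 (v i) (j 0)) i l =
        c * fderiv ℂ f z0 (v i) (j l.succ) * f z0 (j 0) -
          f z0 (j l.succ) * (c * fderiv ℂ f z0 (v i) (j 0)) := by
      rw [Matrix.smul_apply, Matrix.of_apply, smul_eq_mul]
      ring
    rw [h5]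
    exact h4
  have hdet2 : ∀ᶠ M in atTop, (jm (W M) j).det ≠ 0 := by
    have h4 : Tendsto (fun M => (jm (W M) j).det) atTop _ :=
      (Continuous.matrix_det continuous_id).continuousAt.tendsto.comp hjm
    refine h4.eventually_ne ?_
    rw [id, Matrix.det_smul]
    exact mul_ne_zero (pow_ne_zero _ hc) hdet
  have h0 : ∀ᶠ M in atTop, eval 0 (W M (j 0)) ≠ 0 := by
    refine (hW2 (j 0)).eventually_ne ?_
    rw [hg0]
    exact hz0
  have hcl : ∀ᶠ M in atTop, ∀ i, ‖eval 0 (W M i) - f z0 i‖ ≤ δ := by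
    rw [Filter.eventually_all]
    intro i
    have h4 := (hW2 i).sub_const (f z0 i)
    rw [hg0, sub_self] at h4
    have h5 := h4.norm
    rw [norm_zero] at h5
    filter_upwards [h5.eventually_lt_const hδ] with M hM
    exact hM.le
  obtain ⟨M, g1, g2, g3, g4⟩ := (hW.and (hdet2.and (h0.and hcl))).exists
  exact ⟨W M, g1.1, g4, g3, g2⟩

/-- the polynomial map over `L` as a map over the complex numbers -/
noncomputable def cmap {k : Subfield ℂ} {L : IntermediateField k ℂ}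
    (W : Fin (n + 1) → MvPolynomial (Fin e) L) (j : Fin (n + 1)) : MvPolynomial (Fin e) ℂ :=
  MvPolynomial.map (algebraMap L ℂ) (W j)

/-- **Approximation over finite extensions of `k`.** -/
theorem core_fin (k : Subfield ℂ) [Countable k] :
    ∃ Ψ : ℝ → ℝ, SuperPoly Ψ ∧ Monotone Ψ ∧ (∀ r, 1 ≤ Ψ r) ∧
      ∀ (n : ℕ) (ι : Type) (G : ι → MvPolynomial (Fin (n + 1)) k),
      ∀ (d : ℕ) (f : (Fin d → ℂ) → Fin (n + 1) → ℂ), Differentiable ℂ f →
        (∀ z i, aeval (f z) (G i) = 0) → Slow Ψ f →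
        ∀ᶠ M : ℕ in atTop, ∃ L : IntermediateField k ℂ, FiniteDimensional k L ∧
          ∃ W : Fin (n + 1) → MvPolynomial (Fin d) L, (∀ i, aeval W (G i) = 0) ∧
          (∀ j l, degreeOf l (W j) ≤ M) ∧
          ∀ z, ‖z‖ ≤ M → ∀ j, ‖f z j - eval z (cmap W j)‖ ≤ 3 / ((M : ℝ) + 1) := by
  classical
  obtain ⟨Ψ, hΨ, hmon, hone, hcore⟩ := core k
  refine ⟨Ψ, hΨ, hmon, hone, fun n ι G d f hf hX hslow => ?_⟩
  let I : Ideal (MvPolynomial (Fin (n + 1)) k) := Ideal.span (Set.range G)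
  obtain ⟨V, hV⟩ : I.FG := IsNoetherian.noetherian I
  have hmap : ∀ (x : Fin (n + 1) → ℂ) (P : MvPolynomial (Fin (n + 1)) k),
      eval x (MvPolynomial.map k.subtype P) = aeval x P := fun x P => by rw [eval_map]; rfl
  have hin : ∀ z, ∀ P ∈ I, aeval (f z) P = 0 := by
    intro z P hP
    have hle : I ≤ RingHom.ker (aeval (f z) : MvPolynomial (Fin (n + 1)) k →ₐ[k] ℂ) := by
      refine Ideal.span_le.2 ?_
      rintro _ ⟨i, rfl⟩
      exact hX z i
    exact hle hP
  have h1 := hcore n (I.map (MvPolynomial.map k.subtype)) ⟨I, rfl⟩ d f hf (by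
    intro z H hH
    have hle : I.map (MvPolynomial.map k.subtype) ≤ RingHom.ker (eval (f z)) := by
      refine Ideal.map_le_iff_le_comap.2 fun P hP => ?_
      change eval (f z) (MvPolynomial.map k.subtype P) = 0
      rw [hmap]
      exact hin z P hP
    exact hle hH) hslow
  filter_upwards [h1] with M hM
  obtain ⟨W, h2, h3, h4⟩ := hM
  obtain ⟨L, hL, W', g1, g2, g3⟩ := exists_finite k V (W := W) (by
    intro P hP
    have h5 := h2 _ (Ideal.mem_map_of_mem (MvPolynomial.map k.subtype)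
      (by rw [← hV]; exact Ideal.subset_span (Finset.mem_coe.2 hP) : P ∈ I))
    have h6 : aeval W (MvPolynomial.map k.subtype P) = aeval W P := by
      rw [aeval_def, aeval_def, eval₂_map]
      rfl
    rwa [h6] at h5) h3 (M : ℝ) (δ := 1 / ((M : ℝ) + 1)) (by positivity)
  refine ⟨L, hL, W', fun i => ?_, g2, fun z hz j => ?_⟩
  · have hle : I ≤ RingHom.ker (aeval W' : MvPolynomial (Fin (n + 1)) k →ₐ[k] _) := by
      rw [← hV]
      exact Ideal.span_le.2 fun P hP => g1 P (Finset.mem_coe.1 hP)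
    exact hle (Ideal.subset_span ⟨i, rfl⟩)
  · have h5 : f z j - eval z (cmap W' j) = (f z j - eval z (W j)) +
        (eval z (W j) - eval z (cmap W' j)) := by ring
    have h6 : (3 : ℝ) / ((M : ℝ) + 1) = 2 / ((M : ℝ) + 1) + 1 / ((M : ℝ) + 1) := by ring
    rw [h5, h6]
    exact (norm_add_le _ _).trans (add_le_add (h4 z hz j) (g3 z hz j))

theorem aeval_cmap {k : Subfield ℂ} {L : IntermediateField k ℂ}
    {W : Fin (n + 1) → MvPolynomial (Fin e) L} {P : MvPolynomial (Fin (n + 1)) k}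
    (h : aeval W P = 0) : aeval (cmap W) P = 0 := by
  have h5 := MvPolynomial.comp_aeval_apply (f := W)
    (MvPolynomial.mapAlgHom (IsScalarTower.toAlgHom k L ℂ) :
      MvPolynomial (Fin e) L →ₐ[k] MvPolynomial (Fin e) ℂ) P
  rw [h, map_zero] at h5
  exact h5.symm

theorem pmap_mem {k : Subfield ℂ} {W : Fin (n + 1) → MvPolynomial (Fin e) ℂ}
    {P : MvPolynomial (Fin (n + 1)) k} (h : aeval W P = 0) (t : Fin e → ℂ) :
    aeval (pmap W t) P = 0 := by
  have h2 := MvPolynomial.comp_aeval_apply (f := W)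
    ((aeval t : MvPolynomial (Fin e) ℂ →ₐ[ℂ] ℂ).restrictScalars k) P
  rw [h, map_zero] at h2
  exact h2.symm

end Pool.Agent.Q40.AD
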